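import Pool.Agent.H785R2.ABC.A12
import Pool.Agent.H510R2.Div

/-! Counting lemmas for sums of `n` integers with a small radical. -/

namespace Pool.Agent.H255Z.Sum

open Finset Pool.Agent.H785R2.ABC

open Classical in
/-- nonzero integers up to `X` all of whose prime factors divide `M` -/
noncomputable def Sm (X M : ℕ) : Finset ℤ :=
  (Icc (-(X : ℤ)) X).filter fun y => y ≠ 0 ∧ ∀ p : ℕ, p.Prime → (p : ℤ) ∣ y → p ∣ M

theorem Sm_le (ε : ℝ) (hε : 0 < ε) : ∃ D : ℝ, 0 < D ∧ ∀ X M : ℕ, 1 ≤ X → 1 ≤ M →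
    ((Sm X M).card : ℝ) ≤ D * ((X : ℝ) * M) ^ ε := by
  classical
  obtain ⟨D1, hD1, h1⟩ := stmtA2 ε hε
  obtain ⟨D2, hD2, h2⟩ := Pool.Agent.H510R2.divisor_bound ε hε
  refine ⟨2 * (D2 * D1), by positivity, fun X M hX hM => ?_⟩
  set T := M.divisors.biUnion fun g => (Icc 1 X).filter fun d => rad d = g with hT
  have e1 : (Sm X M).card ≤ 2 * T.card := by
    refine Finset.card_le_mul_card_image_of_maps_to (f := Int.natAbs) ?_ 2 ?_
    · intro y hy
      simp only [Sm, mem_filter, mem_Icc] at hy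
      obtain ⟨⟨a1, a2⟩, a3, a4⟩ := hy
      simp only [hT, mem_biUnion, Nat.mem_divisors, mem_filter, mem_Icc]
      refine ⟨rad y.natAbs, ⟨?_, by omega⟩, ⟨by omega, by omega⟩, rfl⟩
      refine Finset.prod_primes_dvd M (fun p hp => (Nat.prime_of_mem_primeFactors hp).prime) ?_
      intro p hp
      exact a4 p (Nat.prime_of_mem_primeFactors hp)
        (Int.natCast_dvd.2 (Nat.dvd_of_mem_primeFactors hp))
    · intro d _
      refine le_trans (Finset.card_le_card (t := {(d : ℤ), -(d : ℤ)}) fun y hy => ?_)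
        Finset.card_le_two
      have := (mem_filter.1 hy).2
      simp only [mem_insert, mem_singleton]
      omega
  have e2 : (T.card : ℝ) ≤ D2 * (M : ℝ) ^ ε * (D1 * (X : ℝ) ^ ε) := by
    calc (T.card : ℝ) ≤ ∑ g ∈ M.divisors, (((Icc 1 X).filter fun d => rad d = g).card : ℝ) := by
          exact_mod_cast Finset.card_biUnion_le
      _ ≤ ∑ g ∈ M.divisors, D1 * (X : ℝ) ^ ε := Finset.sum_le_sum fun g _ => h1 X hX g
      _ = M.divisors.card * (D1 * (X : ℝ) ^ ε) := by rw [Finset.sum_const, nsmul_eq_mul]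
      _ ≤ _ := mul_le_mul_of_nonneg_right (h2 M hM) (by positivity)
  have e3 : ((Sm X M).card : ℝ) ≤ 2 * T.card := by exact_mod_cast e1
  rw [Real.mul_rpow (by positivity) (by positivity)]
  nlinarith

theorem seq_count {α : Type*} [DecidableEq α] (B : ℝ) (hB : 0 ≤ B) :
    ∀ (n : ℕ) (S : Finset (Fin n → α)),
      (∀ k : Fin n, ∀ x ∈ S,
        (((S.filter fun y => ∀ j, k < j → y j = x j).image fun y => y k).card : ℝ) ≤ B) →
      (S.card : ℝ) ≤ B ^ n := by
  intro n
  induction n with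
  | zero =>
    intro S _
    have : S.card ≤ 1 := Finset.card_le_one.2 fun a _ b _ => Subsingleton.elim a b
    simpa using this
  | succ n ih =>
    intro S h
    set T := S.image (fun x : Fin (n + 1) → α => (Fin.tail x : Fin n → α)) with hT
    have hTc : (T.card : ℝ) ≤ B ^ n := by
      refine ih T fun k t ht => ?_
      obtain ⟨x, hx, rfl⟩ := mem_image.1 ht
      refine le_trans ?_ (h k.succ x hx)
      refine Nat.cast_le.2 (Finset.card_le_card fun a ha => ?_)
      obtain ⟨u, hu, rfl⟩ := mem_image.1 ha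
      obtain ⟨hu1, hu2⟩ := mem_filter.1 hu
      obtain ⟨y, hy, rfl⟩ := mem_image.1 hu1
      refine mem_image.2 ⟨y, mem_filter.2 ⟨hy, fun j hj => ?_⟩, rfl⟩
      obtain ⟨j', rfl⟩ := Fin.exists_succ_eq.2 (Fin.ne_zero_of_lt hj)
      exact hu2 j' (Fin.succ_lt_succ_iff.1 hj)
    rw [Finset.card_eq_sum_card_image (fun x : Fin (n + 1) → α => (Fin.tail x : Fin n → α)) S]
    push_cast
    have hf : ∀ t ∈ T, ((S.filter fun x : Fin (n + 1) → α => Fin.tail x = t).card : ℝ) ≤ B := by
      intro t ht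
      obtain ⟨x, hx, rfl⟩ := mem_image.1 ht
      refine le_trans ?_ (h 0 x hx)
      refine Nat.cast_le.2 (Finset.card_le_card_of_injOn (fun y => y 0) ?_ ?_)
      · intro y hy
        obtain ⟨hy1, hy2⟩ := mem_filter.1 (mem_coe.1 hy)
        refine mem_coe.2 (mem_image.2 ⟨y, mem_filter.2 ⟨hy1, fun j hj => ?_⟩, rfl⟩)
        obtain ⟨j', rfl⟩ := Fin.exists_succ_eq.2 (Fin.ne_zero_of_lt hj)
        exact congrFun hy2 j'
      · intro y hy z hz hyz
        have a1 := (mem_filter.1 (mem_coe.1 hy)).2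
        have a2 := (mem_filter.1 (mem_coe.1 hz)).2
        rw [← Fin.cons_self_tail y, ← Fin.cons_self_tail z, a1, a2]
        exact congrArg (fun a => Fin.cons a (Fin.tail x)) hyz
    calc _ ≤ ∑ t ∈ T, B := Finset.sum_le_sum hf
      _ = T.card * B := by rw [Finset.sum_const, nsmul_eq_mul]
      _ ≤ B ^ n * B := mul_le_mul_of_nonneg_right hTc hB
      _ = B ^ (n + 1) := by ring

/-- tail sums -/
def tl {n : ℕ} (x : Fin n → ℤ) (m : Fin n) : ℤ := ∑ i ∈ univ.filter (fun i => m ≤ i), x i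

open Classical in
/-- tuples whose primes divide `ρ` or a later tail sum -/
noncomputable def G (n X ρ : ℕ) : Finset (Fin n → ℤ) :=
  (Fintype.piFinset fun _ : Fin n => Icc (-(X : ℤ)) X).filter fun x =>
    (∀ i, x i ≠ 0) ∧ (∀ m : Fin n, 0 < (m : ℕ) → tl x m ≠ 0) ∧
      ∀ (k : Fin n) (p : ℕ), p.Prime → (p : ℤ) ∣ x k → p ∣ ρ ∨ ∃ m, k < m ∧ (p : ℤ) ∣ tl x m

theorem tl_le {n X : ℕ} {x : Fin n → ℤ} (h : ∀ i, x i ∈ Icc (-(X : ℤ)) X) (m : Fin n) :
    (tl x m).natAbs ≤ n * X := by
  have : |tl x m| ≤ n * X := by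
    refine (Finset.abs_sum_le_sum_abs _ _).trans ?_
    refine (Finset.sum_le_sum_of_subset_of_nonneg (Finset.subset_univ _)
      fun _ _ _ => abs_nonneg _).trans ?_
    refine (Finset.sum_le_sum fun i _ => abs_le.2 (mem_Icc.1 (h i))).trans ?_
    simp
  zify
  exact this

theorem G_le (n : ℕ) (ε : ℝ) (hε : 0 < ε) : ∃ D : ℝ, 0 < D ∧ ∀ X ρ : ℕ, 1 ≤ X → 1 ≤ ρ →
    ((G n X ρ).card : ℝ) ≤ (D * ((X : ℝ) * (ρ * ((n + 1) * X) ^ n)) ^ ε) ^ n := by
  classical
  obtain ⟨D, hD, h⟩ := Sm_le ε hε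
  refine ⟨D, hD, fun X ρ hX hρ => seq_count _ (by positivity) n _ fun k x hx => ?_⟩
  simp only [G, mem_filter, Fintype.mem_piFinset] at hx
  obtain ⟨b1, b2, b3, b4⟩ := hx
  set M := ρ * ∏ m ∈ univ.filter (fun m => k < m), (tl x m).natAbs with hM
  have hM1 : 1 ≤ M := by
    refine Nat.mul_pos hρ (Finset.prod_pos fun m hm => Int.natAbs_pos.2 (b3 m ?_))
    have := (mem_filter.1 hm).2
    exact lt_of_le_of_lt (Nat.zero_le _) this
  have hM2 : M ≤ ρ * ((n + 1) * X) ^ n := by
    refine Nat.mul_le_mul_left _ ?_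
    refine (Finset.prod_le_pow_card _ _ ((n + 1) * X) fun m _ =>
      (tl_le b1 m).trans (Nat.mul_le_mul_right _ (by omega))).trans ?_
    refine Nat.pow_le_pow_right (Nat.mul_pos (by omega) hX) ?_
    simpa using Finset.card_le_univ (univ.filter (fun m : Fin n => k < m))
  refine le_trans ?_ ((h X M hX hM1).trans ?_)
  · refine Nat.cast_le.2 (Finset.card_le_card fun a ha => ?_)
    obtain ⟨y, hy, rfl⟩ := mem_image.1 ha
    obtain ⟨hy1, hy2⟩ := mem_filter.1 hy
    simp only [G, mem_filter, Fintype.mem_piFinset] at hy1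
    obtain ⟨c1, c2, c3, c4⟩ := hy1
    simp only [Sm, mem_filter]
    refine ⟨c1 k, c2 k, fun p hp hpd => ?_⟩
    rcases c4 k p hp hpd with h1 | ⟨m, hm, h1⟩
    · exact h1.mul_right _
    · have e : tl y m = tl x m :=
        Finset.sum_congr rfl fun i hi => hy2 i (lt_of_lt_of_le hm (mem_filter.1 hi).2)
      rw [e] at h1
      exact ((Int.natCast_dvd.1 h1).trans (Finset.dvd_prod_of_mem (fun m => (tl x m).natAbs)
        (mem_filter.2 ⟨mem_univ _, hm⟩))).mul_left _
  · refine mul_le_mul_of_nonneg_left (Real.rpow_le_rpow (by positivity) ?_ hε.le) hD.le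
    refine mul_le_mul_of_nonneg_left ?_ (by positivity)
    exact_mod_cast hM2

/-- initial segments -/
def seg (n m : ℕ) : Finset (Fin n) := univ.filter fun i => (i : ℕ) < m

theorem card_seg {n m : ℕ} (h : m ≤ n) : (seg n m).card = m := by
  have : (seg n m).map Fin.valEmbedding = range m := by
    ext a
    simp only [seg, mem_map, mem_filter, mem_univ, true_and, Fin.valEmbedding_apply, mem_range]
    exact ⟨fun ⟨i, h1, h2⟩ => h2 ▸ h1, fun h1 => ⟨⟨a, by omega⟩, h1, rfl⟩⟩
  rw [← card_map Fin.valEmbedding, this, card_range]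

theorem perm_count (n : ℕ) (I : Finset (Fin n)) :
    Fintype.card (Equiv.Perm (Fin n)) ≤ n.choose (n / 2) *
      (univ.filter fun σ : Equiv.Perm (Fin n) => (seg n I.card).map σ.toEmbedding = I).card := by
  classical
  have hm : I.card ≤ n := by simpa using Finset.card_le_univ I
  have e1 : (univ : Finset (Equiv.Perm (Fin n))).card ≤
      (univ.filter fun σ : Equiv.Perm (Fin n) => (seg n I.card).map σ.toEmbedding = I).card *
        (powersetCard I.card (univ : Finset (Fin n))).card := by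
    refine Finset.card_le_mul_card_image_of_maps_to
      (f := fun σ : Equiv.Perm (Fin n) => (seg n I.card).map σ.toEmbedding) ?_ _ ?_
    · intro σ _
      rw [mem_powersetCard]
      exact ⟨subset_univ _, by rw [card_map, card_seg hm]⟩
    · intro J hJ
      obtain ⟨τ, hτ⟩ := Equiv.Perm.exists_map_finset_eq J I (mem_powersetCard.1 hJ).2
      refine Finset.card_le_card_of_injOn (fun σ => σ.trans τ) ?_ ?_
      · intro σ hσ
        have := (mem_filter.1 (mem_coe.1 hσ)).2
        refine mem_coe.2 (mem_filter.2 ⟨mem_univ _, ?_⟩)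
        refine Eq.trans ?_ hτ
        rw [← this, Finset.map_map]
        rfl
      · intro a _ b _ hab
        ext i
        have := congrArg (fun e : Equiv.Perm (Fin n) => e i) hab
        simp only [Equiv.trans_apply, EmbeddingLike.apply_eq_iff_eq] at this
        rw [this]
  rw [card_powersetCard, card_univ, card_univ, Fintype.card_fin, mul_comm] at e1
  exact e1.trans (Nat.mul_le_mul_right _ (Nat.choose_le_middle _ _))

theorem chain_avg (n : ℕ) (P : Finset ℕ) (I : ℕ → Finset (Fin n)) (w : ℕ → ℝ)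
    (hw : ∀ p ∈ P, 0 ≤ w p) : ∃ σ : Equiv.Perm (Fin n), ∑ p ∈ P, w p ≤ n.choose (n / 2) *
      ∑ p ∈ P.filter (fun p => (seg n (I p).card).map σ.toEmbedding = I p), w p := by
  classical
  obtain ⟨σ, -, h⟩ := Finset.exists_le_of_sum_le (s := (univ : Finset (Equiv.Perm (Fin n))))
    (f := fun _ => ∑ p ∈ P, w p) (g := fun σ => (n.choose (n / 2) : ℝ) *
      ∑ p ∈ P.filter (fun p => (seg n (I p).card).map σ.toEmbedding = I p), w p)
    univ_nonempty (by
      rw [← Finset.mul_sum, Finset.sum_const, nsmul_eq_mul, Finset.mul_sum]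
      simp_rw [Finset.sum_filter]
      rw [Finset.sum_comm, Finset.mul_sum]
      refine Finset.sum_le_sum fun p hp => ?_
      rw [← Finset.sum_filter, Finset.sum_const, nsmul_eq_mul, ← mul_assoc]
      refine mul_le_mul_of_nonneg_right ?_ (hw p hp)
      rw [card_univ]
      exact_mod_cast perm_count n (I p))
  exact ⟨σ, h⟩

end Pool.Agent.H255Z.Sum
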