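import Pool.Agent.H255Z.Sum.A

/-! The exceptional set for sums of `n` integers without vanishing subsums. -/

namespace Pool.Agent.H255Z.Sum

open Finset

theorem reduce (n : ℕ) (S : Finset ℕ) (X : ℕ) (x : Fin n → ℤ) (h0 : ∀ i, x i ≠ 0)
    (hg : univ.gcd x = 1)
    (hs : ∑ i, x i = 0) (hv : ∀ I : Finset (Fin n), I.Nonempty → I ≠ univ → ∑ i ∈ I, x i ≠ 0)
    (hX : ∀ i, |x i| ≤ X) : ∃ (σ : Equiv.Perm (Fin n)) (ρ : ℕ), 1 ≤ ρ ∧
      Real.log ρ ≤ (1 - 1 / (n.choose (n / 2) : ℝ)) *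
        ∑ p ∈ (∏ i, x i).natAbs.primeFactors \ S, Real.log p ∧
      x ∘ σ ∈ G n X ((∏ p ∈ S.filter Nat.Prime, p) * ρ) := by
  classical
  set P := (∏ i, x i).natAbs.primeFactors \ S with hP
  set I : ℕ → Finset (Fin n) := fun p => univ.filter fun i => (p : ℤ) ∣ x i with hI
  obtain ⟨σ, hσ⟩ := chain_avg n P I (fun p => Real.log p) fun p _ => Real.log_natCast_nonneg p
  have hPp : ∀ p ∈ P, p.Prime := fun p hp => Nat.prime_of_mem_primeFactors (mem_sdiff.1 hp).1
  have hc : (0 : ℝ) < n.choose (n / 2) := by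
    exact_mod_cast Nat.choose_pos (Nat.div_le_self _ _)
  refine ⟨σ, ∏ p ∈ P.filter (fun p => ¬ (seg n (I p).card).map σ.toEmbedding = I p), p,
    Finset.prod_pos fun p hp => (hPp p (mem_filter.1 hp).1).pos, ?_, ?_⟩
  · push_cast
    rw [Real.log_prod fun p hp => by exact_mod_cast (hPp p (mem_filter.1 hp).1).ne_zero]
    have e := Finset.sum_filter_add_sum_filter_not P
      (fun p => (seg n (I p).card).map σ.toEmbedding = I p) (fun p : ℕ => Real.log p)
    rw [← div_le_iff₀' hc] at hσ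
    have e2 : (1 - 1 / (n.choose (n / 2) : ℝ)) * ∑ p ∈ P, Real.log p =
        ∑ p ∈ P, Real.log p - (∑ p ∈ P, Real.log p) / (n.choose (n / 2) : ℝ) := by ring
    linarith
  · have htl : ∀ m : Fin n, tl (x ∘ σ) m =
        ∑ i ∈ (univ.filter fun i => m ≤ i).map σ.toEmbedding, x i := by
      intro m
      rw [Finset.sum_map]; rfl
    simp only [G, mem_filter, Fintype.mem_piFinset]
    refine ⟨fun i => mem_Icc.2 (abs_le.1 (hX _)), fun i => h0 _, fun m hm => ?_, ?_⟩
    · rw [htl]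
      refine hv _ ⟨σ m, mem_map.2 ⟨m, by simp, rfl⟩⟩ fun e => ?_
      have : σ ⟨0, m.pos⟩ ∈ (univ.filter fun i => m ≤ i).map σ.toEmbedding := by
        rw [e]; exact mem_univ _
      obtain ⟨j, hj, hj2⟩ := mem_map.1 this
      have h3 : j = ⟨0, m.pos⟩ := σ.injective hj2
      have h4 := (mem_filter.1 hj).2
      rw [h3, Fin.le_def] at h4
      simp only at h4
      omega
    · intro k p hp hd
      by_cases hS : p ∈ S
      · exact Or.inl ((Finset.dvd_prod_of_mem (fun p => p) (mem_filter.2 ⟨hS, hp⟩)).mul_right _)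
      have hpP : p ∈ P := by
        refine mem_sdiff.2 ⟨Nat.mem_primeFactors.2 ⟨hp, ?_, ?_⟩, hS⟩
        · exact Int.natCast_dvd.1 (hd.trans (Finset.dvd_prod_of_mem x (mem_univ (σ k))))
        · exact Int.natAbs_ne_zero.2 (Finset.prod_ne_zero_iff.2 fun i _ => h0 i)
      by_cases hf : (seg n (I p).card).map σ.toEmbedding = I p
      · right
        have hlt : (I p).card < n := by
          refine lt_of_lt_of_eq (Finset.card_lt_card (ssubset_univ_iff.2 fun e => ?_))
            (by simp)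
          have : (p : ℤ) ∣ univ.gcd x := Finset.dvd_gcd fun i _ =>
            (mem_filter.1 (show i ∈ I p from e ▸ mem_univ i)).2
          rw [hg] at this
          exact hp.one_lt.ne' (by exact_mod_cast Int.eq_one_of_dvd_one (by positivity) this)
        have hk : σ k ∈ I p := mem_filter.2 ⟨mem_univ _, hd⟩
        rw [← hf] at hk
        obtain ⟨j, hj, hj2⟩ := mem_map.1 hk
        have h3 : j = k := σ.injective hj2
        refine ⟨⟨(I p).card, hlt⟩, ?_, ?_⟩
        · rw [Fin.lt_def, ← h3]; exact (mem_filter.1 hj).2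
        · have e := Finset.sum_filter_add_sum_filter_not univ
            (fun i : Fin n => (⟨(I p).card, hlt⟩ : Fin n) ≤ i) (fun i => x (σ i))
          rw [Equiv.sum_comp σ x, hs] at e
          have e3 : tl (x ∘ σ) ⟨(I p).card, hlt⟩ = -∑ i ∈ univ.filter
              (fun i : Fin n => ¬ (⟨(I p).card, hlt⟩ : Fin n) ≤ i), x (σ i) :=
            eq_neg_of_add_eq_zero_left e
          rw [e3, dvd_neg]
          refine Finset.dvd_sum fun i hi => ?_
          have h5 : σ i ∈ I p := by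
            rw [← hf]
            refine mem_map.2 ⟨i, mem_filter.2 ⟨mem_univ _, ?_⟩, rfl⟩
            have := (mem_filter.1 hi).2
            rw [Fin.le_def] at this
            simp only at this
            omega
          exact (mem_filter.1 h5).2
      · exact Or.inl ((Finset.dvd_prod_of_mem (fun p => p) (mem_filter.2 ⟨hpP, hf⟩)).mul_left _)

theorem main (n : ℕ) (hn : 2 ≤ n) (S : Finset ℕ) (lam C η : ℝ) (hlam : 0 ≤ lam) (hη : 0 < η) :
    ∃ D : ℝ, ∀ X : ℕ, 1 ≤ X →
      ({x : Fin n → ℤ | univ.gcd x = 1 ∧ ∑ i, x i = 0 ∧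
        (∀ I : Finset (Fin n), I.Nonempty → I ≠ univ → ∑ i ∈ I, x i ≠ 0) ∧ (∀ i, |x i| ≤ X) ∧
        ∑ p ∈ (∏ i, x i).natAbs.primeFactors \ S, Real.log p ≤
          lam * Real.log ((univ.sup fun i => (x i).natAbs : ℕ) : ℝ) + C}.ncard : ℝ) ≤
        D * (X : ℝ) ^ (lam * (1 - 1 / (n.choose (n / 2) : ℝ)) + η) := by
  classical
  set θ : ℝ := 1 - 1 / (n.choose (n / 2) : ℝ) with hθ
  have hc : (1 : ℝ) ≤ n.choose (n / 2) := by
    exact_mod_cast Nat.choose_pos (Nat.div_le_self _ _)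
  have hθ0 : 0 ≤ θ := by
    rw [hθ, sub_nonneg, div_le_one (by linarith)]; exact hc
  have hθ1 : θ ≤ 1 := by
    rw [hθ, sub_le_self_iff]; positivity
  have hn0 : (0 : ℝ) < n := by exact_mod_cast (by omega : 0 < n)
  set δ : ℝ := η / ((1 + lam + n) * n) with hδ
  have hδ0 : 0 < δ := by positivity
  obtain ⟨D, hD, h⟩ := G_le n δ hδ0
  set A : ℕ := ∏ p ∈ S.filter Nat.Prime, p with hA
  have hA1 : 1 ≤ A := Finset.prod_pos (s := S.filter Nat.Prime) (f := fun p => p)
    fun p hp => Nat.Prime.pos (mem_filter.1 hp).2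
  set K : ℝ := A * Real.exp |C| * (n + 1) ^ n with hK
  refine ⟨Fintype.card (Equiv.Perm (Fin n)) * Real.exp |C| * (D * K ^ δ) ^ n, fun X hX => ?_⟩
  have hX1 : (1 : ℝ) ≤ X := by exact_mod_cast hX
  have hX0 : (0 : ℝ) < X := by linarith
  set R : ℝ := Real.exp |C| * (X : ℝ) ^ (lam * θ) with hR
  set T := (univ : Finset (Equiv.Perm (Fin n))).biUnion fun σ => (Icc 1 ⌊R⌋₊).biUnion fun ρ =>
    (G n X (A * ρ)).image fun y => y ∘ σ.symm with hT
  have e1 : {x : Fin n → ℤ | univ.gcd x = 1 ∧ ∑ i, x i = 0 ∧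
        (∀ I : Finset (Fin n), I.Nonempty → I ≠ univ → ∑ i ∈ I, x i ≠ 0) ∧ (∀ i, |x i| ≤ X) ∧
        ∑ p ∈ (∏ i, x i).natAbs.primeFactors \ S, Real.log p ≤
          lam * Real.log ((univ.sup fun i => (x i).natAbs : ℕ) : ℝ) + C} ⊆ (T : Set _) := by
    rintro x ⟨hg, hs, hv, hb, hr⟩
    have h0 : ∀ i, x i ≠ 0 := by
      intro i
      have := hv {i} (singleton_nonempty i) fun e => by
        have := congrArg Finset.card e
        simp at this
        omega
      simpa using this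
    obtain ⟨σ, ρ, h1, h2, h3⟩ := reduce n S X x h0 hg hs hv hb
    simp only [hT, coe_biUnion, mem_coe, Set.mem_iUnion, mem_biUnion, mem_image]
    refine ⟨σ, mem_univ _, ρ, mem_Icc.2 ⟨h1, Nat.le_floor ?_⟩, x ∘ σ, h3, ?_⟩
    · have hρ : (0 : ℝ) < ρ := by exact_mod_cast h1
      have a1 : 1 ≤ univ.sup fun i => (x i).natAbs :=
        le_trans (Int.natAbs_pos.2 (h0 ⟨0, by omega⟩))
          (Finset.le_sup (f := fun i => (x i).natAbs) (mem_univ _))
      have a2 : (univ.sup fun i => (x i).natAbs) ≤ X := Finset.sup_le fun i _ => by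
        have := hb i
        zify; exact this
      have a3 : Real.log ((univ.sup fun i => (x i).natAbs : ℕ) : ℝ) ≤ Real.log X :=
        Real.log_le_log (by exact_mod_cast a1) (by exact_mod_cast a2)
      have a4 := mul_le_mul_of_nonneg_left a3 hlam
      have a5 := mul_le_mul_of_nonneg_left (hr.trans (add_le_add a4 (le_abs_self C))) hθ0
      rw [hR, Real.rpow_def_of_pos hX0, ← Real.exp_add, ← Real.exp_log hρ, Real.exp_le_exp]
      nlinarith [abs_nonneg C]
    · ext i; simp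
  have e2 : ∀ ρ ∈ Icc 1 ⌊R⌋₊, ((G n X (A * ρ)).card : ℝ) ≤ (D * K ^ δ) ^ n * (X : ℝ) ^ η := by
    intro ρ hρ
    obtain ⟨r1, r2⟩ := mem_Icc.1 hρ
    refine (h X (A * ρ) hX (Nat.mul_pos hA1 r1)).trans ?_
    have b1 : (ρ : ℝ) ≤ Real.exp |C| * (X : ℝ) ^ lam := by
      refine ((Nat.cast_le.2 r2).trans (Nat.floor_le (by positivity))).trans ?_
      refine mul_le_mul_of_nonneg_left (Real.rpow_le_rpow_of_exponent_le hX1 ?_) (by positivity)
      nlinarith
    have b2 : (X : ℝ) * (((A * ρ : ℕ) : ℝ) * ((n + 1) * X) ^ n) ≤ K * (X : ℝ) ^ (1 + lam + n) := by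
      rw [Real.rpow_add hX0, Real.rpow_add hX0, Real.rpow_one, Real.rpow_natCast, mul_pow, hK]
      push_cast
      calc (X : ℝ) * (A * ρ * ((n + 1) ^ n * X ^ n)) = ρ * (X * A * ((n + 1) ^ n * X ^ n)) := by
            ring
        _ ≤ Real.exp |C| * (X : ℝ) ^ lam * (X * A * ((n + 1) ^ n * X ^ n)) :=
            mul_le_mul_of_nonneg_right b1 (by positivity)
        _ = _ := by ring
    have b3 : (X : ℝ) ^ η = (((X : ℝ) ^ (1 + lam + n)) ^ δ) ^ n := by
      rw [← Real.rpow_mul hX0.le, ← Real.rpow_mul_natCast hX0.le]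
      congr 1
      rw [hδ]; field_simp
    rw [b3, ← mul_pow, mul_assoc, ← Real.mul_rpow (by positivity) (by positivity)]
    exact pow_le_pow_left₀ (by positivity) (mul_le_mul_of_nonneg_left
      (Real.rpow_le_rpow (by positivity) b2 hδ0.le) hD.le) n
  have e3 : (T.card : ℝ) ≤ Fintype.card (Equiv.Perm (Fin n)) *
      (R * ((D * K ^ δ) ^ n * (X : ℝ) ^ η)) := by
    refine (Nat.cast_le.2 Finset.card_biUnion_le).trans ?_
    push_cast
    rw [← card_univ, ← nsmul_eq_mul]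
    refine Finset.sum_le_card_nsmul _ _ _ fun σ _ => ?_
    refine (Nat.cast_le.2 Finset.card_biUnion_le).trans ?_
    push_cast
    refine (Finset.sum_le_card_nsmul _ _ ((D * K ^ δ) ^ n * (X : ℝ) ^ η) fun ρ hρ =>
      (Nat.cast_le.2 Finset.card_image_le).trans (e2 ρ hρ)).trans ?_
    rw [nsmul_eq_mul]
    refine mul_le_mul_of_nonneg_right ?_ (by positivity)
    simpa using Nat.floor_le (by positivity : 0 ≤ R)
  refine (Nat.cast_le.2 (Set.ncard_le_ncard e1 T.finite_toSet)).trans ?_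
  rw [Set.ncard_coe_finset]
  refine e3.trans (le_of_eq ?_)
  rw [Real.rpow_add hX0, hR]
  ring

end Pool.Agent.H255Z.Sum
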