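import Pool.Agent.H255Z.Sum.A

/-! Linear algebra and averaging lemmas for hyperplanes in general position. -/

namespace Pool.Agent.H255Z.Sum

open Finset

theorem perm_count2 (q k : ℕ) (hk : k ≤ q) (I : Finset (Fin q)) :
    Fintype.card (Equiv.Perm (Fin q)) * (q - I.card).choose k ≤ q.choose k *
      (univ.filter fun σ : Equiv.Perm (Fin q) => Disjoint ((seg q k).map σ.toEmbedding) I).card := by
  classical
  have e1 : (univ.filter fun σ : Equiv.Perm (Fin q) =>
      Disjoint ((seg q k).map σ.toEmbedding) I).card = ∑ J ∈ powersetCard k Iᶜ,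
        (univ.filter fun σ : Equiv.Perm (Fin q) => (seg q k).map σ.toEmbedding = J).card := by
    rw [Finset.card_eq_sum_card_fiberwise (f := fun σ : Equiv.Perm (Fin q) =>
      (seg q k).map σ.toEmbedding) (t := powersetCard k Iᶜ)]
    · refine Finset.sum_congr rfl fun J hJ => ?_
      rw [Finset.filter_filter]
      refine congrArg Finset.card (Finset.filter_congr fun σ _ => ⟨fun h => h.2, fun h => ⟨?_, h⟩⟩)
      rw [h]
      exact Finset.subset_compl_iff_disjoint_right.1 (mem_powersetCard.1 hJ).1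
    · intro σ hσ
      refine mem_coe.2 (mem_powersetCard.2 ⟨Finset.subset_compl_iff_disjoint_right.2
        (mem_filter.1 (mem_coe.1 hσ)).2, by rw [card_map, card_seg hk]⟩)
  have e2 : ∀ J ∈ powersetCard k Iᶜ, Fintype.card (Equiv.Perm (Fin q)) ≤ q.choose k *
      (univ.filter fun σ : Equiv.Perm (Fin q) => (seg q k).map σ.toEmbedding = J).card := by
    intro J hJ
    have hJk := (mem_powersetCard.1 hJ).2
    have e3 : (univ : Finset (Equiv.Perm (Fin q))).card ≤
        (univ.filter fun σ : Equiv.Perm (Fin q) => (seg q k).map σ.toEmbedding = J).card *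
          (powersetCard k (univ : Finset (Fin q))).card := by
      refine Finset.card_le_mul_card_image_of_maps_to
        (f := fun σ : Equiv.Perm (Fin q) => (seg q k).map σ.toEmbedding) ?_ _ ?_
      · intro σ _
        rw [mem_powersetCard]
        exact ⟨subset_univ _, by rw [card_map, card_seg hk]⟩
      · intro J' hJ'
        obtain ⟨τ, hτ⟩ := Equiv.Perm.exists_map_finset_eq J' J
          ((mem_powersetCard.1 hJ').2.trans hJk.symm)
        refine Finset.card_le_card_of_injOn (fun σ => σ.trans τ) ?_ ?_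
        · intro σ hσ
          have := (mem_filter.1 (mem_coe.1 hσ)).2
          refine mem_coe.2 (mem_filter.2 ⟨mem_univ _, ?_⟩)
          refine Eq.trans ?_ hτ
          rw [← this, Finset.map_map]
          rfl
        · intro a _ b _ hab
          ext i
          have := congrArg (fun e : Equiv.Perm (Fin q) => e i) hab
          simp only [Equiv.trans_apply, EmbeddingLike.apply_eq_iff_eq] at this
          rw [this]
    rwa [card_powersetCard, card_univ, card_univ, Fintype.card_fin, mul_comm] at e3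
  rw [e1, Finset.mul_sum]
  refine le_trans (le_of_eq ?_) (Finset.card_nsmul_le_sum _ _ _ e2)
  rw [card_powersetCard, card_compl, Fintype.card_fin, smul_eq_mul, mul_comm]

theorem avg2 (q : ℕ) (μ : ℝ) (P : Finset ℕ) (I : ℕ → Finset (Fin q)) (k : ℕ → ℕ) (w : ℕ → ℝ)
    (hw : ∀ p ∈ P, 0 ≤ w p) (hk : ∀ p ∈ P, k p ≤ q)
    (hμ : ∀ p ∈ P, μ * q.choose (k p) ≤ (q - (I p).card).choose (k p)) :
    ∃ σ : Equiv.Perm (Fin q), μ * ∑ p ∈ P, w p ≤
      ∑ p ∈ P.filter (fun p => Disjoint ((seg q (k p)).map σ.toEmbedding) (I p)), w p := by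
  classical
  obtain ⟨σ, -, h⟩ := Finset.exists_le_of_sum_le (s := (univ : Finset (Equiv.Perm (Fin q))))
    (f := fun _ => μ * ∑ p ∈ P, w p) (g := fun σ =>
      ∑ p ∈ P.filter (fun p => Disjoint ((seg q (k p)).map σ.toEmbedding) (I p)), w p)
    univ_nonempty (by
      rw [Finset.sum_const, nsmul_eq_mul, ← mul_assoc, Finset.mul_sum]
      simp_rw [Finset.sum_filter]
      rw [Finset.sum_comm]
      refine Finset.sum_le_sum fun p hp => ?_
      rw [← Finset.sum_filter, Finset.sum_const, nsmul_eq_mul]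
      refine mul_le_mul_of_nonneg_right ?_ (hw p hp)
      rw [card_univ]
      have h1 : (0 : ℝ) < q.choose (k p) := by exact_mod_cast Nat.choose_pos (hk p hp)
      have h2 : ((Fintype.card (Equiv.Perm (Fin q)) : ℕ) : ℝ) * ((q - (I p).card).choose (k p)) ≤
          q.choose (k p) * ((univ.filter fun σ : Equiv.Perm (Fin q) =>
            Disjoint ((seg q (k p)).map σ.toEmbedding) (I p)).card : ℝ) := by
        exact_mod_cast perm_count2 q (k p) (hk p hp) (I p)
      have h3 := mul_le_mul_of_nonneg_left (hμ p hp)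
        (Nat.cast_nonneg (α := ℝ) (Fintype.card (Equiv.Perm (Fin q))))
      refine le_of_mul_le_mul_left ?_ h1
      nlinarith)
  exact ⟨σ, h⟩

variable {N q : ℕ} (L : Fin q → Fin N → ℤ)

/-- any `N` or fewer of the forms are independent -/
def GP : Prop := ∀ B : Finset (Fin q), B.card ≤ N → ∀ c : Fin q → ℤ, ∑ i ∈ B, c i • L i = 0 →
  ∀ i ∈ B, c i = 0

theorem gp_of (hq : N ≤ q)
    (h : ∀ B : Finset (Fin q), B.card = N → LinearIndependent ℤ fun i : B => L i) : GP L := by
  intro B hB c hc
  obtain ⟨B', h1, -, h2⟩ := Finset.exists_subsuperset_card_eq (subset_univ B) hB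
    (by simpa using hq)
  have h3 : LinearIndepOn ℤ L (B : Set (Fin q)) :=
    LinearIndepOn.mono (show LinearIndepOn ℤ L (B' : Set (Fin q)) from h B' h2) h1
  exact linearIndepOn_finset_iff.1 h3 c hc

theorem dep {ι : Type*} [DecidableEq ι] (v : ι → Fin N → ℤ) (T : Finset ι) (hT : N < T.card) :
    ∃ c : ι → ℤ, ∑ i ∈ T, c i • v i = 0 ∧ ∃ i ∈ T, c i ≠ 0 := by
  by_contra hcon
  push Not at hcon
  have h1 : LinearIndepOn ℤ v (T : Set ι) := linearIndepOn_finset_iff.2 hcon
  have h2 := LinearIndependent.fintype_card_le_finrank h1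
  simp at h2
  omega

variable {L}

theorem cross (h : GP L) (R I : Finset (Fin q)) (hd : Disjoint R I) (h1 : R.card ≤ N)
    (h2 : I.card ≤ N) (h3 : N < R.card + I.card) : ∃ c : Fin q → ℤ,
      ∑ i ∈ R, c i • L i ≠ 0 ∧ ∑ i ∈ R, c i • L i = -∑ i ∈ I, c i • L i := by
  classical
  obtain ⟨c, hc, i, hi, hi0⟩ := dep L (R ∪ I) (by rwa [card_union_of_disjoint hd])
  rw [sum_union hd] at hc
  refine ⟨c, fun e => ?_, eq_neg_of_add_eq_zero_left hc⟩
  rw [e, zero_add] at hc
  rcases mem_union.1 hi with hi | hi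
  · exact hi0 (h R h1 c e i hi)
  · exact hi0 (h I h2 c hc i hi)

theorem coord (h : GP L) (B : Finset (Fin q)) (hB : B.card = N) (j : Fin N) :
    ∃ d : ℤ, d ≠ 0 ∧ ∃ c : Fin q → ℤ, ∀ x : Fin N → ℤ, d * x j = ∑ i ∈ B, c i * (L i ⬝ᵥ x) := by
  classical
  obtain ⟨c, hc, i, hi, hi0⟩ := dep (fun o : Option (Fin q) => o.elim (Pi.single j 1) L)
    (insertNone B) (by rw [card_insertNone]; omega)
  rw [sum_insertNone] at hc
  simp only [Option.elim] at hc
  refine ⟨c none, fun e => ?_, fun i => -c (some i), fun x => ?_⟩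
  · rw [e, zero_smul, zero_add] at hc
    cases i with
    | none => exact hi0 e
    | some i => exact hi0 (h B hB.le (fun i => c (some i)) hc i (by simpa using hi))
  · have := congrArg (fun v => v ⬝ᵥ x) hc
    simp only [add_dotProduct, smul_dotProduct, single_one_dotProduct, sum_dotProduct,
      zero_dotProduct, smul_eq_mul] at this
    simp only [neg_mul, Finset.sum_neg_distrib]
    linarith

end Pool.Agent.H255Z.Sum
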