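import Pool.Agent.H255Z.Sum.C

/-! The exceptional set for hyperplanes in general position. -/

namespace Pool.Agent.H255Z.Sum

open Finset

variable {N q : ℕ}

/-- admissible pairs of index sets -/
def Ok (N : ℕ) (R I : Finset (Fin q)) : Prop :=
  Disjoint R I ∧ R.card ≤ N ∧ I.card ≤ N ∧ N < R.card + I.card

/-- the form attached to a pair of index sets -/
def Mf (L : Fin q → Fin N → ℤ) (c : Finset (Fin q) → Finset (Fin q) → Fin q → ℤ)
    (R I : Finset (Fin q)) : Fin N → ℤ := ∑ i ∈ R, c R I i • L i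

theorem dot_le (v x : Fin N → ℤ) (X : ℕ) (h : ∀ i, x i ∈ Icc (-(X : ℤ)) X) :
    (v ⬝ᵥ x).natAbs ≤ (∑ j, (v j).natAbs) * X := by
  zify
  rw [Finset.sum_mul]
  refine (Finset.abs_sum_le_sum_abs _ _).trans (Finset.sum_le_sum fun j _ => ?_)
  rw [abs_mul]
  exact mul_le_mul_of_nonneg_left (abs_le.2 (mem_Icc.1 (h j))) (abs_nonneg _)

open Classical in
/-- points whose primes are known one form after the other -/
noncomputable def G2 (L : Fin q → Fin N → ℤ) (c : Finset (Fin q) → Finset (Fin q) → Fin q → ℤ)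
    (σ : Equiv.Perm (Fin q)) (X ρ : ℕ) : Finset (Fin N → ℤ) :=
  (Fintype.piFinset fun _ : Fin N => Icc (-(X : ℤ)) X).filter fun x =>
    (∀ i, L i ⬝ᵥ x ≠ 0) ∧ (∀ R I, Ok N R I → Mf L c R I ⬝ᵥ x ≠ 0) ∧
      ∀ (j : Fin q) (p : ℕ), (j : ℕ) < N → p.Prime → (p : ℤ) ∣ L (σ j) ⬝ᵥ x → p ∣ ρ ∨
        ∃ R I, Ok N R I ∧ R ⊆ (seg q j).map σ.toEmbedding ∧ (p : ℤ) ∣ Mf L c R I ⬝ᵥ x

theorem Mf_dot (L : Fin q → Fin N → ℤ) (c : Finset (Fin q) → Finset (Fin q) → Fin q → ℤ)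
    (R I : Finset (Fin q)) (x : Fin N → ℤ) :
    Mf L c R I ⬝ᵥ x = ∑ i ∈ R, c R I i * (L i ⬝ᵥ x) := by
  simp only [Mf, sum_dotProduct, smul_dotProduct, smul_eq_mul]

theorem G2_le {L : Fin q → Fin N → ℤ} (hL : GP L) (hq : N ≤ q)
    (c : Finset (Fin q) → Finset (Fin q) → Fin q → ℤ) (ε : ℝ) (hε : 0 < ε) :
    ∃ (D : ℝ) (W : ℕ), 0 < D ∧ 1 ≤ W ∧ ∀ (σ : Equiv.Perm (Fin q)) (X ρ : ℕ), 1 ≤ X → 1 ≤ ρ →
      ((G2 L c σ X ρ).card : ℝ) ≤ (D * (((W * X : ℕ) : ℝ) * (ρ * (W * X) ^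
        Fintype.card (Finset (Fin q) × Finset (Fin q)) : ℕ)) ^ ε) ^ N := by
  classical
  obtain ⟨D, hD, h⟩ := Sm_le ε hε
  set W := 1 + ∑ i, ∑ j, (L i j).natAbs +
    ∑ t : Finset (Fin q) × Finset (Fin q), ∑ j, (Mf L c t.1 t.2 j).natAbs with hW
  have hW1 : ∀ i, ∑ j, (L i j).natAbs ≤ W := fun i => by
    have := Finset.single_le_sum (f := fun i => ∑ j, (L i j).natAbs) (fun _ _ => Nat.zero_le _)
      (mem_univ i)
    omega
  have hW2 : ∀ R I, ∑ j, (Mf L c R I j).natAbs ≤ W := fun R I => by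
    have := Finset.single_le_sum (f := fun t : Finset (Fin q) × Finset (Fin q) =>
      ∑ j, (Mf L c t.1 t.2 j).natAbs) (fun _ _ => Nat.zero_le _) (mem_univ (R, I))
    simp only at this
    omega
  refine ⟨D, W, hD, by omega, fun σ X ρ hX hρ => ?_⟩
  have hWX : 1 ≤ W * X := Nat.mul_pos (by omega) hX
  set f : (Fin N → ℤ) → Fin N → ℤ := fun x j => L (σ (Fin.castLE hq j.rev)) ⬝ᵥ x with hf
  have key : ∀ (x y : Fin N → ℤ) (m : ℕ), m ≤ N →
      (∀ j : Fin N, (j.rev : ℕ) < m → f y j = f x j) →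
      ∀ i ∈ (seg q m).map σ.toEmbedding, L i ⬝ᵥ y = L i ⬝ᵥ x := by
    intro x y m hm hxy i hi
    obtain ⟨i', hi', rfl⟩ := mem_map.1 hi
    have h1 : (i' : ℕ) < m := (mem_filter.1 hi').2
    have := hxy (Fin.rev ⟨i', by omega⟩) (by rw [Fin.rev_rev]; exact h1)
    simpa [hf] using this
  have hinj : Function.Injective f := by
    intro x y hxy
    ext j
    obtain ⟨d, hd, e, he⟩ := coord hL ((seg q N).map σ.toEmbedding)
      (by rw [card_map, card_seg hq]) j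
    refine mul_left_cancel₀ hd ?_
    rw [he, he]
    exact Finset.sum_congr rfl fun i hi => by
      rw [key y x N le_rfl (fun j _ => congrFun hxy j) i hi]
  rw [← Finset.card_image_of_injective _ hinj]
  refine seq_count _ (by positivity) N _ fun k y hy => ?_
  obtain ⟨x, hx, rfl⟩ := mem_image.1 hy
  simp only [G2, mem_filter, Fintype.mem_piFinset] at hx
  obtain ⟨b1, b2, b3, b4⟩ := hx
  set U := univ.filter (fun t : Finset (Fin q) × Finset (Fin q) => Ok N t.1 t.2 ∧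
    t.1 ⊆ (seg q (k.rev : ℕ)).map σ.toEmbedding) with hU
  set M := ρ * ∏ t ∈ U, (Mf L c t.1 t.2 ⬝ᵥ x).natAbs with hM
  have hM1 : 1 ≤ M := Nat.mul_pos hρ (Finset.prod_pos fun t ht =>
    Int.natAbs_pos.2 (b3 _ _ (mem_filter.1 ht).2.1))
  have hM2 : M ≤ ρ * (W * X) ^ Fintype.card (Finset (Fin q) × Finset (Fin q)) := by
    refine Nat.mul_le_mul_left _ ?_
    refine (Finset.prod_le_pow_card _ _ (W * X) fun t _ =>
      (dot_le _ x X b1).trans (Nat.mul_le_mul_right _ (hW2 _ _))).trans ?_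
    exact Nat.pow_le_pow_right hWX (Finset.card_le_univ _)
  refine le_trans ?_ ((h (W * X) M hWX hM1).trans ?_)
  · refine Nat.cast_le.2 (Finset.card_le_card fun a ha => ?_)
    obtain ⟨u, hu, rfl⟩ := mem_image.1 ha
    obtain ⟨hu1, hu2⟩ := mem_filter.1 hu
    obtain ⟨y, hy1, rfl⟩ := mem_image.1 hu1
    simp only [G2, mem_filter, Fintype.mem_piFinset] at hy1
    obtain ⟨c1, c2, c3, c4⟩ := hy1
    simp only [Sm, mem_filter]
    refine ⟨?_, c2 _, fun p hp hpd => ?_⟩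
    · have := (dot_le (L (σ (Fin.castLE hq k.rev))) y X c1).trans
        (Nat.mul_le_mul_right _ (hW1 _))
      rw [mem_Icc, ← abs_le]
      zify at this
      push_cast
      exact this
    rcases c4 (Fin.castLE hq k.rev) p k.rev.2 hp hpd with h1 | ⟨R, I, h1, h2, h3⟩
    · exact h1.mul_right _
    · have e : Mf L c R I ⬝ᵥ y = Mf L c R I ⬝ᵥ x := by
        rw [Mf_dot, Mf_dot]
        refine Finset.sum_congr rfl fun i hi => ?_
        rw [key x y k.rev k.rev.2.le (fun j hj => hu2 j (Fin.rev_lt_rev.1 hj)) i (h2 hi)]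
      rw [e] at h3
      exact ((Int.natCast_dvd.1 h3).trans (Finset.dvd_prod_of_mem
        (fun t : Finset (Fin q) × Finset (Fin q) => (Mf L c t.1 t.2 ⬝ᵥ x).natAbs)
        (a := (R, I)) (mem_filter.2 ⟨mem_univ _, h1, h2⟩))).mul_left _
  · refine mul_le_mul_of_nonneg_left (Real.rpow_le_rpow (by positivity) ?_ hε.le) hD.le
    refine mul_le_mul_of_nonneg_left ?_ (by positivity)
    exact_mod_cast hM2

theorem bad_primes {L : Fin q → Fin N → ℤ} (hL : GP L) : ∃ Δ : ℕ, 1 ≤ Δ ∧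
    ∀ (x : Fin N → ℤ) (p : ℕ), univ.gcd x = 1 → p.Prime → ¬ p ∣ Δ →
      (univ.filter fun i => (p : ℤ) ∣ L i ⬝ᵥ x).card < N := by
  classical
  have h1 : ∀ (B : Finset (Fin q)) (j : Fin N), ∃ d : ℤ, d ≠ 0 ∧ (B.card = N →
      ∃ c : Fin q → ℤ, ∀ x : Fin N → ℤ, d * x j = ∑ i ∈ B, c i * (L i ⬝ᵥ x)) := by
    intro B j
    by_cases hB : B.card = N
    · obtain ⟨d, hd, h⟩ := coord hL B hB j
      exact ⟨d, hd, fun _ => h⟩
    · exact ⟨1, one_ne_zero, fun h => absurd h hB⟩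
  choose d hd0 hd using h1
  refine ⟨∏ t : Finset (Fin q) × Fin N, (d t.1 t.2).natAbs,
    Finset.prod_pos fun t _ => Int.natAbs_pos.2 (hd0 _ _), fun x p hg hp hn => ?_⟩
  by_contra hcon
  obtain ⟨B, hB1, hB2⟩ := Finset.exists_subset_card_eq (not_lt.1 hcon)
  have : (p : ℤ) ∣ univ.gcd x := Finset.dvd_gcd fun j _ => by
    obtain ⟨c, hc⟩ := hd B j hB2
    have h2 : (p : ℤ) ∣ d B j * x j := by
      rw [hc]
      exact Finset.dvd_sum fun i hi => ((mem_filter.1 (hB1 hi)).2).mul_left _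
    rcases (Nat.prime_iff_prime_int.1 hp).dvd_or_dvd h2 with h3 | h3
    · exact absurd ((Int.natCast_dvd.1 h3).trans (Finset.dvd_prod_of_mem
        (fun t : Finset (Fin q) × Fin N => (d t.1 t.2).natAbs) (a := (B, j)) (mem_univ _))) hn
    · exact h3
  rw [hg] at this
  exact hp.one_lt.ne' (by exact_mod_cast Int.eq_one_of_dvd_one (by positivity) this)

theorem choose_key {q N s : ℕ} (hq : N + 1 ≤ q) (h1 : 1 ≤ s) (h2 : s < N) :
    (2 * q - N - 1).choose q * q.choose (N + 1 - s) ≤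
      (q - s).choose (N + 1 - s) * (2 * q - N - 1).choose ((2 * q - N - 1) / 2) := by
  refine le_trans (le_of_eq ?_) (Nat.mul_le_mul_left _ (Nat.choose_le_middle (q - s) _))
  rw [mul_comm ((q - s).choose _), Nat.choose_mul (by omega), Nat.choose_mul (by omega)]
  congr 1
  exact Nat.choose_symm_of_eq_add (by omega)

theorem reduce2 {L : Fin q → Fin N → ℤ} (hq : N ≤ q)
    (c : Finset (Fin q) → Finset (Fin q) → Fin q → ℤ)
    (hc : ∀ R I, Ok N R I → Mf L c R I = -∑ i ∈ I, c R I i • L i) (Δ : ℕ)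
    (μ : ℝ) (hμ1 : μ ≤ 1)
    (hμ : ∀ s, 1 ≤ s → s < N → μ * q.choose (N + 1 - s) ≤ (q - s).choose (N + 1 - s))
    (S : Finset ℕ) (X : ℕ) (x : Fin N → ℤ) (h0 : ∀ i, L i ⬝ᵥ x ≠ 0)
    (hΔ : ∀ p : ℕ, p.Prime → ¬ p ∣ Δ → (univ.filter fun i => (p : ℤ) ∣ L i ⬝ᵥ x).card < N)
    (hv : ∀ R I, Ok N R I → Mf L c R I ⬝ᵥ x ≠ 0)
    (hX : ∀ i, |x i| ≤ X) : ∃ (σ : Equiv.Perm (Fin q)) (ρ : ℕ), 1 ≤ ρ ∧
      Real.log ρ ≤ (1 - μ) * ∑ p ∈ (∏ i, L i ⬝ᵥ x).natAbs.primeFactors \ S, Real.log p ∧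
      x ∈ G2 L c σ X ((Δ * ∏ p ∈ S.filter Nat.Prime, p) * ρ) := by
  classical
  set P0 := (∏ i, L i ⬝ᵥ x).natAbs.primeFactors \ S with hP0
  set P := P0.filter fun p => ¬ p ∣ Δ with hP
  set I : ℕ → Finset (Fin q) := fun p => univ.filter fun i => (p : ℤ) ∣ L i ⬝ᵥ x with hI
  have hPp : ∀ p ∈ P, p.Prime := fun p hp =>
    Nat.prime_of_mem_primeFactors (mem_sdiff.1 (mem_filter.1 hp).1).1
  have hI1 : ∀ p ∈ P, 1 ≤ (I p).card := by
    intro p hp
    have h1 : (p : ℤ) ∣ ∏ i, L i ⬝ᵥ x := Int.natCast_dvd.2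
      (Nat.dvd_of_mem_primeFactors (mem_sdiff.1 (mem_filter.1 hp).1).1)
    obtain ⟨i, -, hi⟩ := (Nat.prime_iff_prime_int.1 (hPp p hp)).exists_mem_finset_dvd h1
    exact card_pos.2 ⟨i, mem_filter.2 ⟨mem_univ _, hi⟩⟩
  have hI2 : ∀ p ∈ P, (I p).card < N := fun p hp => hΔ p (hPp p hp) (mem_filter.1 hp).2
  obtain ⟨σ, hσ⟩ := avg2 q μ P I (fun p => N + 1 - (I p).card) (fun p => Real.log p)
    (fun p _ => Real.log_natCast_nonneg p) (fun p hp => by have := hI1 p hp; omega)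
    (fun p hp => hμ _ (hI1 p hp) (hI2 p hp))
  refine ⟨σ, ∏ p ∈ P.filter (fun p =>
      ¬ Disjoint ((seg q (N + 1 - (I p).card)).map σ.toEmbedding) (I p)), p,
    Finset.prod_pos fun p hp => (hPp p (mem_filter.1 hp).1).pos, ?_, ?_⟩
  · push_cast
    rw [Real.log_prod fun p hp => by exact_mod_cast (hPp p (mem_filter.1 hp).1).ne_zero]
    have e := Finset.sum_filter_add_sum_filter_not P
      (fun p => Disjoint ((seg q (N + 1 - (I p).card)).map σ.toEmbedding) (I p))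
      (fun p : ℕ => Real.log p)
    have e2 : ∑ p ∈ P, Real.log p ≤ ∑ p ∈ P0, Real.log p :=
      Finset.sum_le_sum_of_subset_of_nonneg (filter_subset _ _)
        fun p _ _ => Real.log_natCast_nonneg p
    have e3 := mul_le_mul_of_nonneg_left e2 (sub_nonneg.2 hμ1)
    linarith
  · simp only [G2, mem_filter, Fintype.mem_piFinset]
    refine ⟨fun i => mem_Icc.2 (abs_le.1 (hX _)), h0, hv, fun j p hj hp hd => ?_⟩
    by_cases hS : p ∈ S
    · exact Or.inl (((Finset.dvd_prod_of_mem (fun p => p)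
        (mem_filter.2 ⟨hS, hp⟩)).mul_left _).mul_right _)
    by_cases hD : p ∣ Δ
    · exact Or.inl ((hD.mul_right _).mul_right _)
    have hpP : p ∈ P := by
      refine mem_filter.2 ⟨mem_sdiff.2 ⟨Nat.mem_primeFactors.2 ⟨hp, ?_, ?_⟩, hS⟩, hD⟩
      · exact Int.natCast_dvd.1
          (hd.trans (Finset.dvd_prod_of_mem (fun i => L i ⬝ᵥ x) (mem_univ (σ j))))
      · exact Int.natAbs_ne_zero.2 (Finset.prod_ne_zero_iff.2 fun i _ => h0 i)
    by_cases hf : Disjoint ((seg q (N + 1 - (I p).card)).map σ.toEmbedding) (I p)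
    · right
      have a1 := hI1 p hpP
      have a2 := hI2 p hpP
      have a3 : ((seg q (N + 1 - (I p).card)).map σ.toEmbedding).card = N + 1 - (I p).card := by
        rw [card_map, card_seg (by omega)]
      have hok : Ok N ((seg q (N + 1 - (I p).card)).map σ.toEmbedding) (I p) :=
        ⟨hf, by omega, by omega, by omega⟩
      refine ⟨_, _, hok, ?_, ?_⟩
      · refine Finset.map_subset_map.2 fun i hi => mem_filter.2 ⟨mem_univ _, ?_⟩
        have b1 := (mem_filter.1 hi).2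
        by_contra b2
        refine Finset.disjoint_left.1 hf (mem_map.2 ⟨j, mem_filter.2 ⟨mem_univ _, ?_⟩, rfl⟩)
          (mem_filter.2 ⟨mem_univ _, hd⟩)
        omega
      · rw [hc _ _ hok, neg_dotProduct, dvd_neg, sum_dotProduct]
        refine Finset.dvd_sum fun i hi => ?_
        rw [smul_dotProduct, smul_eq_mul]
        exact ((mem_filter.1 hi).2).mul_left _
    · exact Or.inl ((Finset.dvd_prod_of_mem (fun p => p) (mem_filter.2 ⟨hpP, hf⟩)).mul_left _)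

theorem main2 (L : Fin q → Fin N → ℤ) (hN : 1 ≤ N) (hq : N + 1 ≤ q)
    (hL : ∀ B : Finset (Fin q), B.card = N → LinearIndependent ℤ fun i : B => L i) :
    ∃ Y : Finset (Fin N → ℤ), (0 : Fin N → ℤ) ∉ Y ∧
      ∀ (S : Finset ℕ) (lam C η : ℝ), 0 ≤ lam → 0 < η → ∃ D : ℝ, ∀ X : ℕ, 1 ≤ X →
      ({x : Fin N → ℤ | univ.gcd x = 1 ∧ (∀ j, |x j| ≤ X) ∧ (∀ i, L i ⬝ᵥ x ≠ 0) ∧
        (∀ m ∈ Y, m ⬝ᵥ x ≠ 0) ∧
        ∑ p ∈ (∏ i, L i ⬝ᵥ x).natAbs.primeFactors \ S, Real.log p ≤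
          lam * Real.log ((univ.sup fun j => (x j).natAbs : ℕ) : ℝ) + C}.ncard : ℝ) ≤
        D * (X : ℝ) ^ (lam * (1 - ((2 * q - N - 1).choose q : ℝ) /
          ((2 * q - N - 1).choose ((2 * q - N - 1) / 2) : ℝ)) + η) := by
  classical
  have hG := gp_of L (by omega) hL
  have h1 : ∀ R I : Finset (Fin q), ∃ c : Fin q → ℤ, Ok N R I →
      ∑ i ∈ R, c i • L i ≠ 0 ∧ ∑ i ∈ R, c i • L i = -∑ i ∈ I, c i • L i := by
    intro R I
    by_cases h : Ok N R I
    · obtain ⟨c, hc⟩ := cross hG R I h.1 h.2.1 h.2.2.1 h.2.2.2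
      exact ⟨c, fun _ => hc⟩
    · exact ⟨0, fun h' => absurd h' h⟩
  choose c hc using h1
  obtain ⟨Δ, hΔ1, hΔ⟩ := bad_primes hG
  refine ⟨(univ.filter fun t : Finset (Fin q) × Finset (Fin q) => Ok N t.1 t.2).image
    fun t => Mf L c t.1 t.2, fun h => ?_, fun S lam C η hlam hη => ?_⟩
  · obtain ⟨t, ht, h2⟩ := mem_image.1 h
    exact (hc _ _ (mem_filter.1 ht).2).1 h2
  set μ : ℝ := ((2 * q - N - 1).choose q : ℝ) /
    ((2 * q - N - 1).choose ((2 * q - N - 1) / 2) : ℝ) with hμ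
  have hc0 : (0 : ℝ) < (2 * q - N - 1).choose ((2 * q - N - 1) / 2) := by
    exact_mod_cast Nat.choose_pos (Nat.div_le_self _ _)
  have hμ1 : μ ≤ 1 := by
    rw [hμ, div_le_one hc0]; exact_mod_cast Nat.choose_le_middle _ _
  have hμ0 : 0 ≤ μ := by positivity
  have hμ2 : ∀ s, 1 ≤ s → s < N → μ * q.choose (N + 1 - s) ≤ (q - s).choose (N + 1 - s) := by
    intro s s1 s2
    rw [hμ, div_mul_eq_mul_div, div_le_iff₀ hc0]
    exact_mod_cast choose_key hq s1 s2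
  set θ : ℝ := 1 - μ with hθ
  have hθ0 : 0 ≤ θ := by linarith
  have hθ1 : θ ≤ 1 := by linarith
  have hn0 : (0 : ℝ) < N := by exact_mod_cast hN
  set Q := Fintype.card (Finset (Fin q) × Finset (Fin q)) with hQ
  set δ : ℝ := η / ((1 + lam + Q) * N) with hδ
  have hδ0 : 0 < δ := by positivity
  obtain ⟨D, W, hD, hW, h⟩ := G2_le hG (by omega) c δ hδ0
  set A : ℕ := Δ * ∏ p ∈ S.filter Nat.Prime, p with hA
  have hA1 : 1 ≤ A := Nat.mul_pos hΔ1 (Finset.prod_pos (s := S.filter Nat.Prime) (f := fun p => p)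
    fun p hp => Nat.Prime.pos (mem_filter.1 hp).2)
  set K : ℝ := W * A * Real.exp |C| * W ^ Q with hK
  refine ⟨Fintype.card (Equiv.Perm (Fin q)) * Real.exp |C| * (D * K ^ δ) ^ N, fun X hX => ?_⟩
  have hX1 : (1 : ℝ) ≤ X := by exact_mod_cast hX
  have hX0 : (0 : ℝ) < X := by linarith
  set R : ℝ := Real.exp |C| * (X : ℝ) ^ (lam * θ) with hR
  set T := (univ : Finset (Equiv.Perm (Fin q))).biUnion fun σ => (Icc 1 ⌊R⌋₊).biUnion fun ρ =>
    G2 L c σ X (A * ρ) with hT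
  have e2 : ∀ σ, ∀ ρ ∈ Icc 1 ⌊R⌋₊,
      ((G2 L c σ X (A * ρ)).card : ℝ) ≤ (D * K ^ δ) ^ N * (X : ℝ) ^ η := by
    intro σ ρ hρ
    obtain ⟨r1, r2⟩ := mem_Icc.1 hρ
    refine (h σ X (A * ρ) hX (Nat.mul_pos hA1 r1)).trans ?_
    have b1 : (ρ : ℝ) ≤ Real.exp |C| * (X : ℝ) ^ lam := by
      refine ((Nat.cast_le.2 r2).trans (Nat.floor_le (by positivity))).trans ?_
      refine mul_le_mul_of_nonneg_left (Real.rpow_le_rpow_of_exponent_le hX1 ?_) (by positivity)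
      nlinarith
    have b2 : ((W * X : ℕ) : ℝ) * ((A * ρ * (W * X) ^ Q : ℕ) : ℝ) ≤
        K * (X : ℝ) ^ (1 + lam + Q) := by
      rw [Real.rpow_add hX0, Real.rpow_add hX0, Real.rpow_one, Real.rpow_natCast, hK]
      push_cast
      rw [mul_pow]
      calc (W : ℝ) * X * (A * ρ * (W ^ Q * X ^ Q)) = ρ * (W * X * A * (W ^ Q * X ^ Q)) := by
            ring
        _ ≤ Real.exp |C| * (X : ℝ) ^ lam * (W * X * A * (W ^ Q * X ^ Q)) :=
            mul_le_mul_of_nonneg_right b1 (by positivity)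
        _ = _ := by ring
    have b3 : (X : ℝ) ^ η = (((X : ℝ) ^ (1 + lam + Q)) ^ δ) ^ N := by
      rw [← Real.rpow_mul hX0.le, ← Real.rpow_mul_natCast hX0.le]
      congr 1
      rw [hδ]; field_simp
    rw [b3, ← mul_pow, mul_assoc D, ← Real.mul_rpow (by positivity) (by positivity)]
    exact pow_le_pow_left₀ (by positivity) (mul_le_mul_of_nonneg_left
      (Real.rpow_le_rpow (by positivity) b2 hδ0.le) hD.le) N
  have e3 : (T.card : ℝ) ≤ Fintype.card (Equiv.Perm (Fin q)) *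
      (R * ((D * K ^ δ) ^ N * (X : ℝ) ^ η)) := by
    refine (Nat.cast_le.2 Finset.card_biUnion_le).trans ?_
    push_cast
    rw [← card_univ, ← nsmul_eq_mul]
    refine Finset.sum_le_card_nsmul _ _ _ fun σ _ => ?_
    refine (Nat.cast_le.2 Finset.card_biUnion_le).trans ?_
    push_cast
    refine (Finset.sum_le_card_nsmul _ _ ((D * K ^ δ) ^ N * (X : ℝ) ^ η) (e2 σ)).trans ?_
    rw [nsmul_eq_mul]
    refine mul_le_mul_of_nonneg_right ?_ (by positivity)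
    simpa using Nat.floor_le (by positivity : 0 ≤ R)
  refine (Nat.cast_le.2 (Set.ncard_le_ncard (t := (T : Set _)) ?_ T.finite_toSet)).trans ?_
  · rintro x ⟨hg, hb, h0, hv, hr⟩
    obtain ⟨σ, ρ, h1, h2, h3⟩ := reduce2 (by omega) c (fun R I h => (hc R I h).2) Δ μ hμ1 hμ2 S X x
      h0 (fun p => hΔ x p hg) (fun R I h => hv _ (mem_image.2
        ⟨(R, I), mem_filter.2 ⟨mem_univ _, h⟩, rfl⟩)) hb
    simp only [hT, coe_biUnion, mem_coe, Set.mem_iUnion, mem_biUnion]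
    refine ⟨σ, mem_univ _, ρ, mem_Icc.2 ⟨h1, Nat.le_floor ?_⟩, h3⟩
    have hρ : (0 : ℝ) < ρ := by exact_mod_cast h1
    have a1 : 1 ≤ univ.sup fun j => (x j).natAbs := by
      by_contra a0
      have a00 : x = 0 := funext fun j => Int.natAbs_eq_zero.1 (by
        have := Finset.le_sup (f := fun j => (x j).natAbs) (mem_univ j)
        omega)
      exact h0 ⟨0, by omega⟩ (by rw [a00, dotProduct_zero])
    have a2 : (univ.sup fun j => (x j).natAbs) ≤ X := Finset.sup_le fun i _ => by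
      have := hb i
      zify; exact this
    have a3 : Real.log ((univ.sup fun j => (x j).natAbs : ℕ) : ℝ) ≤ Real.log X :=
      Real.log_le_log (by exact_mod_cast a1) (by exact_mod_cast a2)
    have a4 := mul_le_mul_of_nonneg_left a3 hlam
    have a5 := mul_le_mul_of_nonneg_left (hr.trans (add_le_add a4 (le_abs_self C))) hθ0
    rw [hR, Real.rpow_def_of_pos hX0, ← Real.exp_add, ← Real.exp_log hρ, Real.exp_le_exp]
    nlinarith [abs_nonneg C]
  rw [Set.ncard_coe_finset]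
  refine e3.trans (le_of_eq ?_)
  rw [Real.rpow_add hX0, hR]
  ring

end Pool.Agent.H255Z.Sum
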